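import Mathlib

/-! Polynomials with a gap in the exponents and prescribed jets. -/

namespace Pool.Agent.Lib.SC93

open Polynomial Finset

lemma taylor_coeff_of_dvd {V : ℚ[X]} {l n : ℕ} (h : (X - 1) ^ l ∣ V) (hn : n < l) :
    (taylor 1 V).coeff n = 0 := by
  obtain ⟨c, rfl⟩ := h
  have : taylor 1 ((X - 1) ^ l * c) = X ^ l * taylor (1 : ℚ) c := by
    rw [taylor_mul, taylor_pow, map_sub, taylor_X, taylor_one]; simp
  rw [this, coeff_X_pow_mul', if_neg (by omega)]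

lemma taylor_sub_pow (μ : ℕ) : taylor (1 : ℚ) ((X - 1) ^ μ) = X ^ μ := by
  rw [taylor_pow, map_sub, taylor_X, taylor_one]; simp

/-- Jets of order `k` at `1` are free on the span of `1, …, X ^ r, X ^ (r + d - k + 1), …, X ^ d`. -/
theorem geo0 (r k d μ : ℕ) (hrk : r ≤ k) (hkd : k ≤ d) :
    ∃ Ψ : ℚ[X], Ψ.natDegree ≤ d ∧ (∀ j, r < j → j ≤ r + d - k → Ψ.coeff j = 0) ∧
      ∀ i, i ≤ k → (taylor 1 Ψ).coeff i = if i = μ then 1 else 0 := by
  set l := k - r with hl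
  set g := d - k with hg
  have hm : ((X - 1 : ℚ[X]) ^ l).Monic := (monic_X_sub_C 1).pow l
  obtain ⟨a, b, hab⟩ : IsCoprime ((X : ℚ[X]) ^ g) ((X - 1) ^ l) :=
    IsCoprime.pow ⟨1, -1, by ring⟩
  set u : ℚ[X] := hasseDeriv (r + 1) ((X - 1) ^ μ) with hu
  set h : ℚ[X] := (u * a) %ₘ (X - 1) ^ l with hh
  have hdeg : h.degree < l := by
    have := degree_modByMonic_lt (u * a) hm
    rwa [degree_pow, ← C_1, degree_X_sub_C, nsmul_eq_mul, mul_one] at this
  set Q : ℚ[X] := ∑ j ∈ Ioc (r + g) d,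
    C ((X ^ g * h).coeff (j - (r + 1)) / (j.choose (r + 1) : ℚ)) * X ^ j with hQ
  have hQc : ∀ j, Q.coeff j = if j ∈ Ioc (r + g) d then
      (X ^ g * h).coeff (j - (r + 1)) / (j.choose (r + 1) : ℚ) else 0 := fun j => by
    rw [hQ, finsetSum_coeff]
    simp only [coeff_C_mul_X_pow, sum_ite_eq]
  have hd : hasseDeriv (r + 1) Q = X ^ g * h := by
    ext n
    rw [hasseDeriv_coeff, hQc]
    split_ifs with hn
    · have : ((n + (r + 1)).choose (r + 1) : ℚ) ≠ 0 := by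
        exact_mod_cast (Nat.choose_pos (by omega)).ne'
      rw [Nat.add_sub_cancel, mul_div_cancel₀ _ this]
    · rw [mul_zero, coeff_X_pow_mul']
      split_ifs with h2
      · rw [mem_Ioc] at hn
        exact (coeff_eq_zero_of_degree_lt (hdeg.trans_le (by exact_mod_cast (by omega)))).symm
      · rfl
  set W : ℚ[X] := Q - (X - 1) ^ μ with hW
  have hdv : (X - 1) ^ l ∣ hasseDeriv (r + 1) W := by
    refine ⟨-(X ^ g * ((u * a) /ₘ (X - 1) ^ l)) - u * b, ?_⟩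
    have e : h + _ = _ := modByMonic_add_div (u * a) ((X - 1) ^ l)
    rw [hW, map_sub, hd, ← hu]
    linear_combination X ^ g * e + u * hab
  have hW0 : ∀ i, r < i → i ≤ k → (taylor 1 W).coeff i = 0 := fun i h1 h2 => by
    obtain ⟨n, rfl⟩ : ∃ n, i = n + (r + 1) := ⟨i - (r + 1), by omega⟩
    have h3 := taylor_coeff_of_dvd hdv (show n < l by omega)
    rw [taylor_coeff] at h3 ⊢
    have h4 := LinearMap.congr_fun (hasseDeriv_comp (R := ℚ) n (r + 1)) W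
    rw [LinearMap.comp_apply, LinearMap.smul_apply] at h4
    rw [h4, nsmul_eq_mul, eval_mul, eval_natCast] at h3
    exact (mul_eq_zero.1 h3).resolve_left (by exact_mod_cast (Nat.choose_pos (by omega)).ne')
  set L : ℚ[X] := ∑ i ∈ range (r + 1), C ((taylor 1 W).coeff i) * (X - 1) ^ i with hL
  have hLd : L.natDegree ≤ r := natDegree_sum_le_of_forall_le _ _ fun i hi => by
    refine (natDegree_C_mul_le _ _).trans ?_
    rw [← C_1, (monic_X_sub_C 1).natDegree_pow, natDegree_X_sub_C]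
    have := mem_range.1 hi
    omega
  have hLt : ∀ i, (taylor 1 L).coeff i = if i ≤ r then (taylor 1 W).coeff i else 0 := fun i => by
    rw [hL, map_sum, finsetSum_coeff]
    simp only [taylor_mul, taylor_C, taylor_sub_pow, coeff_C_mul_X_pow, sum_ite_eq, mem_range,
      Nat.lt_succ_iff]
  refine ⟨Q - L, (natDegree_sub_le _ _).trans (max_le ?_ (by omega)), fun j h1 h2 => ?_,
    fun i hi => ?_⟩
  · exact natDegree_sum_le_of_forall_le _ _ fun j hj =>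
      (natDegree_C_mul_X_pow_le _ _).trans (mem_Ioc.1 hj).2
  · rw [coeff_sub, hQc, if_neg (by rw [mem_Ioc]; omega),
      coeff_eq_zero_of_natDegree_lt (by omega), sub_zero]
  · have e : Q - L = (X - 1) ^ μ + (W - L) := by rw [hW]; ring
    rw [e, map_add, map_sub, coeff_add, coeff_sub, taylor_sub_pow, coeff_X_pow, hLt]
    split_ifs with h1 h2 h2
    · simp
    · rw [hW0 i (by omega) hi]; simp
    · simp
    · rw [hW0 i (by omega) hi]; simp

/-- The dilate `c ^ μ Ψ (X / c)`. -/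
noncomputable def dil (c : ℚ) (μ : ℕ) (Ψ : ℚ[X]) : ℚ[X] := C (c ^ μ) * Ψ.comp (C c⁻¹ * X)

lemma dil_coeff (c : ℚ) (μ : ℕ) (Ψ : ℚ[X]) (j : ℕ) :
    (dil c μ Ψ).coeff j = c ^ μ / c ^ j * Ψ.coeff j := by
  rw [dil, coeff_C_mul, comp_C_mul_X_coeff, inv_pow]; ring

lemma dil_natDegree (c : ℚ) (μ : ℕ) (Ψ : ℚ[X]) : (dil c μ Ψ).natDegree ≤ Ψ.natDegree :=
  natDegree_le_iff_coeff_eq_zero.2 fun j hj => by
    rw [dil_coeff, coeff_eq_zero_of_natDegree_lt hj, mul_zero]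

lemma dil_taylor {c : ℚ} (hc : c ≠ 0) (μ : ℕ) (Ψ : ℚ[X]) :
    taylor c (dil c μ Ψ) = dil c μ (taylor 1 Ψ) := by
  rw [dil, dil, taylor_mul, taylor_C, taylor_apply, taylor_apply, comp_assoc, comp_assoc]
  congr 2
  simp only [mul_comp, add_comp, C_comp, X_comp]
  rw [mul_add, ← C_mul, inv_mul_cancel₀ hc]

/-- The scaled jets: uniform bounds for the Taylor and for the monomial coefficients. -/
theorem geo (r k d : ℕ) (hrk : r ≤ k) (hkd : k ≤ d) :
    ∃ B : ℕ, 1 ≤ B ∧ ∀ c : ℚ, 0 < c → ∀ μ, μ ≤ k → ∃ Ψ : ℚ[X], Ψ.natDegree ≤ d ∧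
      (∀ j, r < j → j ≤ r + d - k → Ψ.coeff j = 0) ∧
      (∀ i, i ≤ k → (taylor c Ψ).coeff i = if i = μ then 1 else 0) ∧
      (∀ i, |(taylor c Ψ).coeff i| ≤ B * (c ^ μ / c ^ i)) ∧
      ∀ j, |Ψ.coeff j| ≤ B * (c ^ μ / c ^ j) := by
  have h0 : ∀ μ : ℕ, ∃ Ψ : ℚ[X], μ ≤ k → Ψ.natDegree ≤ d ∧
      (∀ j, r < j → j ≤ r + d - k → Ψ.coeff j = 0) ∧
      ∀ i, i ≤ k → (taylor 1 Ψ).coeff i = if i = μ then 1 else 0 := fun μ => by
    by_cases hμ : μ ≤ k
    · obtain ⟨Ψ, h⟩ := geo0 r k d μ hrk hkd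
      exact ⟨Ψ, fun _ => h⟩
    · exact ⟨0, fun h => absurd h hμ⟩
  choose Ψ hΨ using h0
  have hb : ∀ P : ℚ[X], ∃ B : ℚ, ∀ j, |P.coeff j| ≤ B := fun P =>
    ⟨∑ j ∈ P.support, |P.coeff j|, fun j => by
      by_cases hj : j ∈ P.support
      · exact single_le_sum (f := fun j => |P.coeff j|) (fun _ _ => abs_nonneg _) hj
      · rw [notMem_support_iff.1 hj, abs_zero]
        exact sum_nonneg fun _ _ => abs_nonneg _⟩
  choose β hβ using hb
  obtain ⟨B, hB⟩ := exists_nat_ge (∑ μ ∈ range (k + 1), (|β (Ψ μ)| + |β (taylor 1 (Ψ μ))|))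
  have hB' : ∀ μ, μ ≤ k → β (Ψ μ) ≤ (B + 1 : ℕ) ∧ β (taylor 1 (Ψ μ)) ≤ (B + 1 : ℕ) := fun μ hμ => by
    have := single_le_sum (f := fun μ => |β (Ψ μ)| + |β (taylor 1 (Ψ μ))|)
      (fun _ _ => by positivity) (mem_range.2 (Nat.lt_succ_of_le hμ))
    have h1 := le_abs_self (β (Ψ μ))
    have h2 := le_abs_self (β (taylor 1 (Ψ μ)))
    have h3 := abs_nonneg (β (Ψ μ))
    have h4 := abs_nonneg (β (taylor 1 (Ψ μ)))
    push_cast
    constructor <;> linarith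
  refine ⟨B + 1, by omega, fun c hc μ hμ => ⟨dil c μ (Ψ μ), (dil_natDegree _ _ _).trans (hΨ μ hμ).1,
    fun j h1 h2 => by rw [dil_coeff, (hΨ μ hμ).2.1 j h1 h2, mul_zero], fun i hi => ?_,
    fun i => ?_, fun j => ?_⟩⟩
  · rw [dil_taylor hc.ne', dil_coeff, (hΨ μ hμ).2.2 i hi]
    split_ifs with h
    · rw [h, div_self (pow_pos hc μ).ne', mul_one]
    · rw [mul_zero]
  · rw [dil_taylor hc.ne', dil_coeff, abs_mul, abs_of_pos (by positivity), mul_comm]
    exact mul_le_mul_of_nonneg_right ((hβ _ i).trans (hB' μ hμ).2) (by positivity)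
  · rw [dil_coeff, abs_mul, abs_of_pos (by positivity), mul_comm]
    exact mul_le_mul_of_nonneg_right ((hβ _ j).trans (hB' μ hμ).1) (by positivity)

end Pool.Agent.Lib.SC93
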